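import Pool.Agent.Helper2.AN.Final

/-!
# The coloured graph of every conjugacy class of involutions of every alternating group
-/

set_option autoImplicit false

namespace Pool.Agent.Results.MP_0d9fdb_al.AlternatingGroups

/-- Let `n ≥ 5`, `L` the alternating group of degree `n` and `D` a conjugacy class of involutions of
`L`. Every permutation of `D` which preserves the orders of the products of two different elements
is the restriction of an automorphism of `L` (which maps `D` onto `D`). -/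
theorem result (n : ℕ) (hn : 5 ≤ n) (D : Set (alternatingGroup (Fin n)))
    (hD : ∃ a₀ : alternatingGroup (Fin n), orderOf a₀ = 2 ∧ ∀ a, a ∈ D ↔ IsConj a₀ a)
    (τ : Equiv.Perm D)
    (hτ : ∀ a b : D, a ≠ b →
      orderOf ((τ a : alternatingGroup (Fin n)) * (τ b : alternatingGroup (Fin n))) =
        orderOf ((a : alternatingGroup (Fin n)) * (b : alternatingGroup (Fin n)))) :
    ∃ φ : alternatingGroup (Fin n) ≃* alternatingGroup (Fin n),
      φ '' D = D ∧ ∀ a : D, φ (a : alternatingGroup (Fin n)) = (τ a : alternatingGroup (Fin n)) := by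
  obtain ⟨a₀, h₀, hD⟩ := hD
  obtain rfl : D = {a | IsConj a₀ a} := Set.ext hD
  have hsq : ∀ a : {a | IsConj a₀ a}, (a : alternatingGroup (Fin n)) * a = 1 := by
    rintro ⟨a, ha⟩
    obtain ⟨c, hc⟩ := isConj_iff.1 ha
    have h1 : a₀ * a₀ = 1 := by
      rw [← pow_two, ← h₀]
      exact pow_orderOf_eq_one a₀
    show a * a = 1
    rw [← hc]
    calc c * a₀ * c⁻¹ * (c * a₀ * c⁻¹) = c * (a₀ * a₀) * c⁻¹ := by group
      _ = 1 := by rw [h1]; group
  obtain ⟨φ, hφ⟩ := Pool.Agent.Helper2.AN.alt_all hn h₀ τ (by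
    intro a b
    by_cases h : a = b
    · rw [h, hsq b, hsq (τ b)]
    · exact hτ a b h)
  refine ⟨φ, ?_, fun a => (hφ a).symm⟩
  ext x
  constructor
  · rintro ⟨a, ha, rfl⟩
    have h1 := hφ ⟨a, ha⟩
    rw [← h1]
    exact (τ ⟨a, ha⟩).2
  · intro hx
    refine ⟨τ.symm ⟨x, hx⟩, (τ.symm ⟨x, hx⟩).2, ?_⟩
    rw [← hφ, Equiv.apply_symm_apply]

end Pool.Agent.Results.MP_0d9fdb_al.AlternatingGroups
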