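import Mathlib
import Pool.Agent.Helper2.SP.Bridge

/-!
# The involution-product coloured graph of `Sp(2n, 2 ^ k)`

`V` is a symplectic space over a finite field of characteristic two, `L = Sp(V)` the group of all its isometries and
`a` an involution of `L`. If `L` is simple, every permutation of the conjugacy class of `a` which preserves the orders
of the products of two distinct elements is the restriction of an automorphism of `L`. If `a` is a transvection,
simplicity is not needed and it is enough that the permutation preserves the relations `|xy| = 2` and `|xy| = 3`.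
-/

set_option autoImplicit false

namespace Pool.Agent.Results.MP_0d9fdb_al.SymplecticGroups

theorem result {K V : Type*} [Field K] [Finite K] (h2 : (2 : K) = 0) [AddCommGroup V] [Module K V]
    [FiniteDimensional K V] (B : LinearMap.BilinForm K V) (halt : B.IsAlt) (hnd : B.Nondegenerate)
    (L : Subgroup (V ≃ₗ[K] V)) (hL : ∀ g : V ≃ₗ[K] V, g ∈ L ↔ ∀ x y, B (g x) (g y) = B x y)
    (a : L) (ha : orderOf a = 2) (τ : Equiv.Perm {b : L // IsConj a b})
    (h : (IsSimpleGroup L ∧ ∀ x y, x ≠ y → orderOf ((τ x).1 * (τ y).1) = orderOf (x.1 * y.1)) ∨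
      ((∃ v : V, ∀ x, (a : V ≃ₗ[K] V) x = x + B x v • v) ∧ ∀ x y, x ≠ y →
        (orderOf ((τ x).1 * (τ y).1) = 2 ↔ orderOf (x.1 * y.1) = 2) ∧
        (orderOf ((τ x).1 * (τ y).1) = 3 ↔ orderOf (x.1 * y.1) = 3))) :
    ∃ φ : MulAut L, φ '' {b | IsConj a b} = {b | IsConj a b} ∧ ∀ x, φ x.1 = (τ x).1 := by
  have : CharP K 2 := CharTwo.of_one_ne_zero_of_two_eq_zero one_ne_zero h2
  rcases h with ⟨hs, hτ⟩ | ⟨⟨v, hav⟩, hτ⟩
  · exact Helper2.SP.all_classes B halt hnd L hL a ha (Or.inl hs) τ hτ
  · have key : ∃ φ : MulAut L, ∀ x, φ x.1 = (τ x).1 := by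
      have hv : v ≠ 0 := by
        rintro rfl
        have h1 : a = 1 := by
          apply Subtype.ext
          ext x
          rw [hav, smul_zero, add_zero]
          rfl
        rw [h1, orderOf_one] at ha
        omega
      obtain ⟨-, h2, -, h4⟩ := Helper81.SG.transvections B halt hnd L hL
        {b : L | ∃ v : V, v ≠ 0 ∧ ∀ x, (b : V ≃ₗ[K] V) x = x + B x v • v} (fun _ => Iff.rfl)
      have hc : ∀ b : L, (b ∈ {b : L | ∃ v : V, v ≠ 0 ∧ ∀ x, (b : V ≃ₗ[K] V) x = x + B x v • v}) ↔
          IsConj a b := fun b => h2 a ⟨v, hv, hav⟩ b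
      let e : {b : L | ∃ v : V, v ≠ 0 ∧ ∀ x, (b : V ≃ₗ[K] V) x = x + B x v • v} ≃
          {b : L // IsConj a b} := Equiv.subtypeEquivRight hc
      obtain ⟨φ, hφ⟩ := h4 ((e.trans τ).trans e.symm) (by
        intro x y hxy
        exact hτ (e x) (e y) fun h => hxy (e.injective h))
      refine ⟨φ, fun x => ?_⟩
      have h5 := hφ (e.symm x)
      have h6 : ((e.trans τ).trans e.symm) (e.symm x) = e.symm (τ x) := by
        show e.symm (τ (e (e.symm x))) = _
        rw [Equiv.apply_symm_apply]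
      rw [h6] at h5
      exact h5
    obtain ⟨φ, hφ⟩ := key
    refine ⟨φ, ?_, hφ⟩
    ext b
    constructor
    · rintro ⟨x, hx, rfl⟩
      have h7 := (τ ⟨x, hx⟩).2
      rw [← hφ ⟨x, hx⟩] at h7
      exact h7
    · intro hb
      refine ⟨(τ.symm ⟨b, hb⟩).1, (τ.symm ⟨b, hb⟩).2, ?_⟩
      have h8 := hφ (τ.symm ⟨b, hb⟩)
      rw [Equiv.apply_symm_apply] at h8
      exact h8

end Pool.Agent.Results.MP_0d9fdb_al.SymplecticGroups
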