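import Mathlib
import Pool.Agent.Helper81.EU.SuOdd

/-!
# The involution-product coloured graph of `PSU(n, q)`

`K` is a finite field with a non trivial involution `star`, so that `K` has `q ^ 2` elements and
`star x = x ^ q`; `SU(n, q)` is `Matrix.specialUnitaryGroup (Fin n) K`, and `PSU(n, q)` is its quotient by its
center, `n ≥ 3`, `(n, q) ≠ (3, 2)`; it is a simple group. Let `a` be an involution of `PSU(n, q)`. Suppose that
`q` is even, or `n = 3`, or `a` is of rank one: `a` is the class of a matrix `r + w gᵀ`. Then every permutation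
of the conjugacy class of `a` which preserves the orders of the products of two distinct elements is the
restriction of an automorphism of `PSU(n, q)`.
-/

set_option autoImplicit false

open Matrix

namespace Pool.Agent.Results.MP_0d9fdb_al.UnitaryGroups

theorem result {K : Type*} [Field K] [Finite K] [StarRing K] (hstar : ∃ x : K, star x ≠ x)
    (n : ℕ) (hn : 3 ≤ n) (hL : n ≠ 3 ∨ Nat.card K ≠ 4)
    [IsSimpleGroup (Matrix.specialUnitaryGroup (Fin n) K ⧸
      Subgroup.center (Matrix.specialUnitaryGroup (Fin n) K))]
    (a : Matrix.specialUnitaryGroup (Fin n) K ⧸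
      Subgroup.center (Matrix.specialUnitaryGroup (Fin n) K))
    (ha : orderOf a = 2)
    (h : (2 : K) = 0 ∨ n = 3 ∨
      ∃ (A : Matrix.specialUnitaryGroup (Fin n) K) (r : K) (w g : Fin n → K),
        (A : Matrix (Fin n) (Fin n) K) = r • (1 : Matrix (Fin n) (Fin n) K) + vecMulVec w g ∧
        QuotientGroup.mk A = a)
    (τ : Equiv.Perm {b : Matrix.specialUnitaryGroup (Fin n) K ⧸
      Subgroup.center (Matrix.specialUnitaryGroup (Fin n) K) // IsConj a b})
    (hτ : ∀ x y, x ≠ y → orderOf ((τ x).1 * (τ y).1) = orderOf (x.1 * y.1)) :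
    ∃ φ : MulAut (Matrix.specialUnitaryGroup (Fin n) K ⧸
        Subgroup.center (Matrix.specialUnitaryGroup (Fin n) K)),
      φ '' {b | IsConj a b} = {b | IsConj a b} ∧ ∀ x, φ x.1 = (τ x).1 := by
  have hcard : 3 ≤ Fintype.card (Fin n) := by rw [Fintype.card_fin]; exact hn
  by_cases h2 : (2 : K) = 0
  · have : CharP K 2 := CharTwo.of_one_ne_zero_of_two_eq_zero one_ne_zero h2
    refine Helper81.EU.psu_even (ι := Fin n) hstar hcard ?_ a ha τ hτ
    rw [Fintype.card_fin]
    exact hL
  by_cases h3 : n = 3
  · subst h3
    exact Helper92.UN.psu_three h2 hstar a ha τ hτ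
  · rcases h with h | h | ⟨A, r, w, g, hA, hmk⟩
    · exact absurd h h2
    · exact absurd h h3
    · -- `A` is not a scalar matrix
      have hne : A ∉ Subgroup.center (Matrix.specialUnitaryGroup (Fin n) K) := by
        intro hc
        rw [← hmk, (QuotientGroup.eq_one_iff A).2 hc, orderOf_one] at ha
        omega
      have hns : ∀ s : K, (A : Matrix (Fin n) (Fin n) K) ≠ s • (1 : Matrix (Fin n) (Fin n) K) := by
        intro s hs
        apply hne
        apply Helper92.UN.scalar_central
        refine ⟨s, fun x => ?_⟩
        rw [Helper92.UN.rhoSU_apply, hs, smul_mulVec, one_mulVec]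
      have hw : w ≠ 0 := by
        rintro rfl
        apply hns r
        rw [hA, Helper2.RO.vec_eq_zero.2 (Or.inl rfl), add_zero]
      have hg : g ≠ 0 := by
        rintro rfl
        apply hns r
        rw [hA, Helper2.RO.vec_eq_zero.2 (Or.inr rfl), add_zero]
      have hA2 : (A : Matrix (Fin n) (Fin n) K) * (A : Matrix (Fin n) (Fin n) K) =
          (r * r) • (1 : Matrix (Fin n) (Fin n) K) := by
        have h8 : A * A ∈ Subgroup.center (Matrix.specialUnitaryGroup (Fin n) K) := by
          rw [← QuotientGroup.eq_one_iff, QuotientGroup.mk_mul, hmk, ← sq, ← ha]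
          exact pow_orderOf_eq_one a
        obtain ⟨s, hs⟩ := Helper81.EU.central_scalar81 hcard h2 hstar h8
        have hs' : (A : Matrix (Fin n) (Fin n) K) * (A : Matrix (Fin n) (Fin n) K) =
            s • (1 : Matrix (Fin n) (Fin n) K) := by
          apply Helper92.UN.mat_ext
          intro x
          rw [smul_mulVec, one_mulVec]
          exact hs x
        obtain ⟨z, hz, hgz, -⟩ := Helper2.RO.exists_perp hcard g g
        have h10 : (A : Matrix (Fin n) (Fin n) K) *ᵥ z = r • z := by
          rw [hA, add_mulVec, smul_mulVec, one_mulVec, vecMulVec_mulVec, hgz]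
          simp
        have h11 : ((A : Matrix (Fin n) (Fin n) K) * (A : Matrix (Fin n) (Fin n) K)) *ᵥ z =
            (r * r) • z := by
          rw [← mulVec_mulVec, h10, mulVec_smul, h10, smul_smul]
        rw [hs', smul_mulVec, one_mulVec] at h11
        obtain ⟨i, hi⟩ := Function.ne_iff.1 hz
        have h12 := congrFun h11 i
        simp only [Pi.smul_apply, smul_eq_mul] at h12
        rw [hs', mul_right_cancel₀ hi h12]
      exact (Helper92.UN.psu hcard h2 hstar A hw hg hA hA2 a hmk).2 τ hτ

end Pool.Agent.Results.MP_0d9fdb_al.UnitaryGroups
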